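import Pool.Agent.H.MP_f4cb44_an.Bwd

open Filter Topology

namespace Pool.Agent.Results.MP_f4cb44_an.Iff

/-- The normalized sequence: the term l j is the (j+1)-st length, times (j+1)^(1/d). -/
noncomputable def norm (d : ℝ) (l : ℕ → ℝ) (j : ℕ) : ℝ := l j * ((j : ℝ) + 1) ^ (1 / d)

/-- Minkowski dimension d: 0 < liminf and limsup < ∞, taken in the extended reals. -/
def HasDim (d : ℝ) (l : ℕ → ℝ) : Prop :=
  0 < liminf (fun j => (norm d l j : EReal)) atTop ∧ limsup (fun j => (norm d l j : EReal)) atTop < ⊤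

/-- Minkowski measurable of dimension d. -/
def Meas (d : ℝ) (l : ℕ → ℝ) : Prop := ∃ L, 0 < L ∧ Tendsto (norm d l) atTop (𝓝 L)

/-- The index set splits into N pairwise disjoint sets, each of total length at least ε. -/
def Splits (l : ℕ → ℝ) (ε : ℝ) (N : ℕ) : Prop :=
  ∃ γ : Fin N → Set ℕ, (∀ i k, i ≠ k → Disjoint (γ i) (γ k)) ∧ ⋃ i, γ i = Set.univ ∧
    ∀ i, ε ≤ ∑' j : γ i, l j

/-- The mass distribution function: the largest N with such a splitting. -/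
noncomputable def mass (l : ℕ → ℝ) (ε : ℝ) : ℕ := sSup {N | Splits l ε N}

open Pool.Agent.H.MP_f4cb44_an

lemma good {l : ℕ → ℝ} (hs : Summable l) (h0 : ∀ j, 0 ≤ l j) : Good l (mass l) := by
  have bd : ∀ ε, 0 < ε → BddAbove {N | Splits l ε N} := fun ε hε =>
    ⟨⌈T l 0 / ε⌉₊, fun N ⟨γ, h1, _, h3⟩ => by
      have h := upper hs h0 hε.le γ h1 h3 0
      rw [Nat.cast_zero, zero_mul, zero_add, ← le_div_iff₀ hε] at h
      exact_mod_cast h.trans (Nat.le_ceil _)⟩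
  refine ⟨fun ε hε m => ?_, fun ε hε m K h1 h2 h3 => ?_⟩
  · rcases Set.eq_empty_or_nonempty {N | Splits l ε N} with h | h
    · have : 0 ≤ T l m := tsum_nonneg fun _ => h0 _
      simp only [mass, h, csSup_empty, bot_eq_zero', Nat.cast_zero, zero_mul]
      positivity
    · obtain ⟨γ, h1, _, h3⟩ := Nat.sSup_mem h (bd ε hε)
      exact upper hs h0 hε.le γ h1 h3 m
  · rcases Nat.eq_zero_or_pos (m + K) with h | h
    · omega
    · exact le_csSup (bd ε hε) (lower hs h0 hε.le m K h1 h2 h3 h)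

theorem result (d : ℝ) (hd : 0 < d) (hd1 : d < 1) (l : ℕ → ℝ) (hpos : ∀ j, 0 < l j)
    (hanti : Antitone l) (hdim : HasDim d l) :
    (∀ ε, 0 < ε → ε ≤ ∑' j, l j → IsGreatest {N | Splits l ε N} (mass l ε)) ∧
    (Meas d l ↔ ∃ c, 0 < c ∧ Tendsto (fun ε => (mass l ε : ℝ) * ε ^ d) (𝓝[>] 0) (𝓝 c)) := by
  have hq : 0 < 1 / d - 1 := sub_pos.2 ((one_lt_div hd).2 hd1)
  have hdq : d * (1 / d - 1 + 1) = 1 := by field_simp; ring
  have e : norm d l = fun j : ℕ => l j * (j + 1) ^ (1 / d - 1 + 1) := by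
    ext j; rw [sub_add_cancel]; rfl
  obtain ⟨b, hb, -⟩ := EReal.lt_iff_exists_real_btwn.1 hdim.2
  have hb' : ∀ᶠ j : ℕ in atTop, l j * (j + 1) ^ (1 / d - 1 + 1) ≤ b :=
    (eventually_lt_of_limsup_lt hb).mono fun j hj => by
      rw [e] at hj; exact (EReal.coe_lt_coe_iff.1 hj).le
  have h0 := fun j => (hpos j).le
  have hs := summ h0 hq hb'
  have hN := good hs h0
  refine ⟨fun ε hε h1 => ?_, fun ⟨L, hL, h⟩ => ⟨_, by positivity,
    fwd hN hs hpos hanti hd hq hdq hL (e ▸ h)⟩, fun ⟨c, hc, h⟩ => ⟨_, ?_,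
    e ▸ bwd hN hs hpos hanti hd hq hdq hc hb' h⟩⟩
  · have bd : BddAbove {N | Splits l ε N} := ⟨⌈T l 0 / ε⌉₊, fun N ⟨γ, h1, _, h3⟩ => by
      have h := upper hs h0 hε.le γ h1 h3 0
      rw [Nat.cast_zero, zero_mul, zero_add, ← le_div_iff₀ hε] at h
      exact_mod_cast h.trans (Nat.le_ceil _)⟩
    refine ⟨Nat.sSup_mem ⟨1, fun _ => Set.univ, fun i k h => absurd (Subsingleton.elim _ _) h,
      Set.iUnion_const _, fun _ => ?_⟩ bd, fun N hN => le_csSup bd hN⟩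
    rwa [tsum_univ]
  · have := mul_pos hc (sub_pos.2 hd1)
    positivity

end Pool.Agent.Results.MP_f4cb44_an.Iff
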